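import Pool.Agent.Q201.AR.Stm

/-!
# Project AR (helper201), job COMP
-/

set_option autoImplicit false

namespace Pool.Agent.Q91.AR.CompJob

open Q201.AR

lemma cp_and {α : Type} [Primcodable α] {p q : α → Prop} (hp : ComputablePred p)
    (hq : ComputablePred q) : ComputablePred (fun a => p a ∧ q a) := by
  obtain ⟨f, hf, rfl⟩ := ComputablePred.computable_iff.1 hp
  obtain ⟨g, hg, rfl⟩ := ComputablePred.computable_iff.1 hq
  exact ComputablePred.computable_iff.2 ⟨fun a => f a && g a, Primrec.and.to_comp.comp hf hg,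
    by funext a; simp⟩

lemma cp_or {α : Type} [Primcodable α] {p q : α → Prop} (hp : ComputablePred p)
    (hq : ComputablePred q) : ComputablePred (fun a => p a ∨ q a) := by
  obtain ⟨f, hf, rfl⟩ := ComputablePred.computable_iff.1 hp
  obtain ⟨g, hg, rfl⟩ := ComputablePred.computable_iff.1 hq
  exact ComputablePred.computable_iff.2 ⟨fun a => f a || g a, Primrec.or.to_comp.comp hf hg,
    by funext a; simp⟩

lemma cp_comp {α β : Type} [Primcodable α] [Primcodable β] {p : β → Prop} (hp : ComputablePred p)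
    {f : α → β} (hf : Computable f) : ComputablePred (fun a => p (f a)) := by
  obtain ⟨g, hg, rfl⟩ := ComputablePred.computable_iff.1 hp
  exact ComputablePred.computable_iff.2 ⟨fun a => g (f a), hg.comp hf, rfl⟩

lemma cp_eq {α : Type} [Primcodable α] {f g : α → ℕ} (hf : Primrec f) (hg : Primrec g) :
    ComputablePred (fun a => f a = g a) :=
  PrimrecPred.computablePred (Primrec.eq.comp hf hg)

lemma cp_false {α : Type} [Primcodable α] : ComputablePred (fun _ : α => False) :=
  ComputablePred.computable_iff.2 ⟨fun _ => false, Computable.const _, by funext a; simp⟩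

lemma cp_ex {α : Type} [Primcodable α] : ∀ (r : ℕ) (p : Fin r → α → Prop),
    (∀ j, ComputablePred (p j)) → ComputablePred (fun a => ∃ j, p j a) := by
  intro r
  induction r with
  | zero =>
    intro p _
    exact cp_false.of_eq fun a => by simp
  | succ r ih =>
    intro p hp
    refine (cp_or (hp 0) (ih (fun j => p j.succ) fun j => hp j.succ)).of_eq fun a => ?_
    exact (Fin.exists_fin_succ (P := fun j => p j a)).symm

/-- decoding of tuples -/
def dec : (m : ℕ) → ℕ → Fin (m + 1) → ℕ
  | 0, x => fun _ => x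
  | m + 1, x => Fin.cons (Nat.unpair x).1 (dec m (Nat.unpair x).2)

/-- coding of tuples -/
def enc : (m : ℕ) → (Fin (m + 1) → ℕ) → ℕ
  | 0, t => t 0
  | m + 1, t => Nat.pair (t 0) (enc m (Fin.tail t))

lemma enc_dec : ∀ (m x : ℕ), enc m (dec m x) = x
  | 0, x => rfl
  | m + 1, x => by
    show Nat.pair ((Fin.cons (Nat.unpair x).1 (dec m (Nat.unpair x).2) : Fin (m + 2) → ℕ) 0)
      (enc m (Fin.tail (Fin.cons (Nat.unpair x).1 (dec m (Nat.unpair x).2) : Fin (m + 2) → ℕ))) = x
    rw [Fin.cons_zero, Fin.tail_cons, enc_dec m, Nat.pair_unpair]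

lemma dec_enc : ∀ (m : ℕ) (t : Fin (m + 1) → ℕ), dec m (enc m t) = t
  | 0, t => by
    funext i
    show t 0 = t i
    have hi : i = 0 := Fin.ext (by have := i.isLt; simp only [Fin.val_zero]; omega)
    rw [hi]
  | m + 1, t => by
    show (Fin.cons (Nat.unpair (Nat.pair (t 0) (enc m (Fin.tail t)))).1
      (dec m (Nat.unpair (Nat.pair (t 0) (enc m (Fin.tail t)))).2) : Fin (m + 2) → ℕ) = t
    rw [Nat.unpair_pair]
    show (Fin.cons (t 0) (dec m (enc m (Fin.tail t))) : Fin (m + 2) → ℕ) = t
    rw [dec_enc m, Fin.cons_self_tail]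

lemma dec_prim_aux : ∀ (m : ℕ) (i : Fin (m + 1)), Primrec fun x => dec m x i
  | 0, i => Primrec.id
  | m + 1, i => by
    refine Fin.cases ?_ (fun i => ?_) i
    · exact (Primrec.fst.comp Primrec.unpair).of_eq fun x => rfl
    · exact ((dec_prim_aux m i).comp (Primrec.snd.comp Primrec.unpair)).of_eq fun x => rfl

lemma dec_prim (m : ℕ) : Primrec (dec m) := by
  rw [Primrec.fin_curry]
  exact ((Primrec.fin_curry₁.2 (dec_prim_aux m)).comp Primrec.snd Primrec.fst).of_eq fun _ => rfl

theorem t_COMP : S_COMP := by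
  classical
  intro k r hk S hS
  obtain ⟨m, rfl⟩ : ∃ m, k = m + 1 := ⟨k - 1, by omega⟩
  set c := m + 1 + r with hc
  set ι : ℕ → ℕ := fun a => (c + 1) * a with hι
  set code : ℕ → (Fin (m + 1) → ℕ) → ℕ := fun i t => (c + 1) * enc m t + (i + 1) with hcode
  have hι0 : ∀ a, ι a % (c + 1) = 0 := fun a => Nat.mul_mod_right _ _
  have hι1 : ∀ a, ι a / (c + 1) = a := fun a => Nat.mul_div_cancel_left _ (by omega)
  have hc0 : ∀ i t, i < c → code i t % (c + 1) = i + 1 := by
    intro i t hi
    rw [hcode]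
    simp only
    rw [Nat.mul_add_mod, Nat.mod_eq_of_lt (by omega)]
  have hc1 : ∀ i t, i < c → code i t / (c + 1) = enc m t := by
    intro i t hi
    rw [hcode]
    simp only
    rw [Nat.mul_add_div (by omega), Nat.div_eq_of_lt (by omega), add_zero]
  have hcr : ∀ x, x % (c + 1) ≠ 0 → x = code (x % (c + 1) - 1) (dec m (x / (c + 1))) := by
    intro x hx
    rw [hcode]
    simp only
    rw [enc_dec, show x % (c + 1) - 1 + 1 = x % (c + 1) by omega]
    exact (Nat.div_add_mod x (c + 1)).symm
  have hir : ∀ x, x % (c + 1) = 0 → x = ι (x / (c + 1)) := by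
    intro x hx
    have := Nat.div_add_mod x (c + 1)
    rw [hx, add_zero] at this
    exact this.symm
  have hmod : ∀ x, x % (c + 1) < c + 1 := fun x => Nat.mod_lt _ (by omega)
  refine ⟨ι, code, ⟨?_, ?_, ?_, ?_⟩, ?_⟩
  · intro a b h
    rw [← hι1 a, ← hι1 b, h]
  · intro i i' t t' hi hi' h
    have h1 := hc0 i t hi
    have h2 := hc0 i' t' hi'
    have h3 := hc1 i t hi
    have h4 := hc1 i' t' hi'
    rw [h, h2] at h1
    rw [h, h4] at h3
    refine ⟨by omega, ?_⟩
    rw [← dec_enc m t, ← dec_enc m t', h3]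
  · intro i t a hi h
    have h1 := hc0 i t hi
    rw [← h, hι0] at h1
    omega
  · intro x
    by_cases hx : x % (c + 1) = 0
    · exact Or.inl ⟨_, hir x hx⟩
    · exact Or.inr ⟨_, by have := hmod x; omega, _, hcr x hx⟩
  · -- computability
    have h0 : Primrec fun v : Fin 2 → ℕ => v 0 :=
      (Primrec.fin_app.comp Primrec.id (Primrec.const 0)).of_eq fun _ => rfl
    have h1 : Primrec fun v : Fin 2 → ℕ => v 1 :=
      (Primrec.fin_app.comp Primrec.id (Primrec.const 1)).of_eq fun _ => rfl
    have hm0 : Primrec fun v : Fin 2 → ℕ => v 0 % (c + 1) :=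
      Primrec.nat_mod.comp h0 (Primrec.const _)
    have hm1 : Primrec fun v : Fin 2 → ℕ => v 1 % (c + 1) :=
      Primrec.nat_mod.comp h1 (Primrec.const _)
    have hq0 : Primrec fun v : Fin 2 → ℕ => v 0 / (c + 1) :=
      Primrec.nat_div.comp h0 (Primrec.const _)
    have hq1 : Primrec fun v : Fin 2 → ℕ => v 1 / (c + 1) :=
      Primrec.nat_div.comp h1 (Primrec.const _)
    have hd0 : Primrec fun v : Fin 2 → ℕ => dec m (v 0 / (c + 1)) := (dec_prim m).comp hq0
    set ix : (Fin 2 → ℕ) → Fin (m + 1) := fun v => ⟨min (v 0 % (c + 1) - 1) (m + 1 - 1), by omega⟩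
      with hix
    have hixp : Primrec ix := by
      rw [← Primrec.fin_val_iff]
      exact Primrec.nat_min.comp (Primrec.nat_sub.comp hm0 (Primrec.const 1)) (Primrec.const _)
    have hco : Primrec fun v : Fin 2 → ℕ => dec m (v 0 / (c + 1)) (ix v) :=
      (Primrec.fin_app.comp hd0 hixp).of_eq fun _ => rfl
    have hne : ComputablePred fun v : Fin 2 → ℕ => v 0 % (c + 1) ≠ 0 :=
      (cp_eq hm0 (Primrec.const 0)).not
    have hA := cp_and hne (cp_and (cp_eq hm1 (Primrec.succ.comp hm0)) (cp_eq hq1 hq0))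
    have hB := cp_and hne (cp_and (cp_eq hm1 (Primrec.const 0)) (cp_eq hq1 hco))
    have hC := cp_ex r (fun (j : Fin r) (v : Fin 2 → ℕ) => v 1 = v 0 ∧
        v 0 % (c + 1) = m + 1 + j + 1 ∧ S j (dec m (v 0 / (c + 1)))) fun j =>
      cp_and (cp_eq h1 h0) (cp_and (cp_eq hm0 (Primrec.const _)) (cp_comp (hS j) hd0.to_comp))
    refine (cp_or hA (cp_or hB hC)).of_eq fun v => ?_
    unfold RR
    refine or_congr ?_ (or_congr ?_ ?_)
    · constructor
      · rintro ⟨g1, g2, g3⟩
        have g2' : v 1 % (c + 1) = v 0 % (c + 1) + 1 := g2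
        have := hmod (v 1)
        refine ⟨v 0 % (c + 1) - 1, dec m (v 0 / (c + 1)), by omega, hcr _ g1, ?_⟩
        have g4 := hcr (v 1) (by omega)
        rw [g3, g2'] at g4
        rw [g4]
        congr 1
        omega
      · rintro ⟨i, t, hi, hx, hy⟩
        have e0 := hc0 i t (by omega)
        have e1 := hc0 (i + 1) t (by omega)
        have e2 := hc1 i t (by omega)
        have e3 := hc1 (i + 1) t (by omega)
        rw [← hx] at e0 e2
        rw [← hy] at e1 e3
        refine ⟨by omega, ?_, by rw [e2, e3]⟩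
        show v 1 % (c + 1) = v 0 % (c + 1) + 1
        omega
    · constructor
      · rintro ⟨g1, g2, g3⟩
        have := hmod (v 0)
        refine ⟨v 0 % (c + 1) - 1, dec m (v 0 / (c + 1)), ix v, by omega, rfl, hcr _ g1, ?_⟩
        rw [← g3]
        exact hir _ g2
      · rintro ⟨i, t, l, hi, hl, hx, hy⟩
        have e0 := hc0 i t (by omega)
        have e2 := hc1 i t (by omega)
        rw [← hx] at e0 e2
        have e4 := hι0 (t l)
        have e5 := hι1 (t l)
        rw [← hy] at e4 e5
        refine ⟨by omega, e4, ?_⟩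
        rw [e5, e2, dec_enc]
        congr 1
        apply Fin.ext
        rw [hl]
        show min i (m + 1 - 1) = min (v 0 % (c + 1) - 1) (m + 1 - 1)
        rw [e0]
        omega
    · constructor
      · rintro ⟨j, g1, g2, g3⟩
        refine ⟨j, dec m (v 0 / (c + 1)), g3, ?_, g1⟩
        have g4 := hcr (v 0) (by omega)
        have g5 : v 0 % (c + 1) - 1 = m + 1 + (j : ℕ) := by omega
        rw [g5] at g4
        exact g4
      · rintro ⟨j, t, hS', hx, hy⟩
        have hj := j.isLt
        have e0 := hc0 (m + 1 + j) t (by omega)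
        have e2 := hc1 (m + 1 + j) t (by omega)
        rw [← hx] at e0 e2
        refine ⟨j, hy, e0, ?_⟩
        rw [e2, dec_enc]
        exact hS'

end Pool.Agent.Q91.AR.CompJob
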